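import Pool.Agent.H24.SCG2.Base2

/-!
Module GENT of the project SCG2: elementary transvections generate `SL(3,F)`.
-/

set_option autoImplicit false

namespace Pool.Agent.H83.SCG2

open Pool.SCG Matrix

section gen

variable {F : Type} [Field F]

/-- the matrix `A` is the matrix of an element of `H` -/
def InS (H : Subgroup (SL3 F)) (A : M3 F) : Prop := ∃ g ∈ H, (g : M3 F) = A

theorem InS.mul {H : Subgroup (SL3 F)} {A B : M3 F} (hA : InS H A) (hB : InS H B) :
    InS H (A * B) := by
  obtain ⟨x, hx, rfl⟩ := hA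
  obtain ⟨y, hy, rfl⟩ := hB
  exact ⟨x * y, H.mul_mem hx hy, Matrix.SpecialLinearGroup.coe_mul x y⟩

theorem InS.one {H : Subgroup (SL3 F)} : InS H (1 : M3 F) :=
  ⟨1, H.one_mem, Matrix.SpecialLinearGroup.coe_one⟩

theorem InS.list_prod {H : Subgroup (SL3 F)} (L : List (M3 F)) (h : ∀ A ∈ L, InS H A) :
    InS H L.prod := by
  induction L with
  | nil => simpa using (InS.one (H := H))
  | cons A L ih =>
    rw [List.prod_cons]
    exact (h A (by simp)).mul (ih (fun B hB => h B (by simp [hB])))

theorem InS.det {H : Subgroup (SL3 F)} {A : M3 F} (hA : InS H A) : A.det = 1 := by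
  obtain ⟨x, _, rfl⟩ := hA
  exact x.2

theorem tv01 (t : F) : transvection (0 : Fin 3) 1 t = !![1, t, 0; 0, 1, 0; 0, 0, 1] := by
  ext i j
  fin_cases i <;> fin_cases j <;> simp [transvection]

theorem tv10 (t : F) : transvection (1 : Fin 3) 0 t = !![1, 0, 0; t, 1, 0; 0, 0, 1] := by
  ext i j
  fin_cases i <;> fin_cases j <;> simp [transvection]

theorem tv12 (t : F) : transvection (1 : Fin 3) 2 t = !![1, 0, 0; 0, 1, t; 0, 0, 1] := by
  ext i j
  fin_cases i <;> fin_cases j <;> simp [transvection]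

theorem tv21 (t : F) : transvection (2 : Fin 3) 1 t = !![1, 0, 0; 0, 1, 0; 0, t, 1] := by
  ext i j
  fin_cases i <;> fin_cases j <;> simp [transvection]

theorem wh1 (u : F) (hu : u ≠ 0) :
    transvection (0 : Fin 3) 1 u * transvection 1 0 (-u⁻¹) * transvection 0 1 u *
      transvection 0 1 (-1) * transvection 1 0 1 * transvection 0 1 (-1) = dg u u⁻¹ 1 := by
  rw [tv01, tv01, tv10, tv10]
  simp only [dg, Matrix.mul_fin_three]
  ext i j
  fin_cases i <;> fin_cases j <;> simp <;> field_simp <;> ring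

theorem wh2 (u : F) (hu : u ≠ 0) :
    transvection (1 : Fin 3) 2 u * transvection 2 1 (-u⁻¹) * transvection 1 2 u *
      transvection 1 2 (-1) * transvection 2 1 1 * transvection 1 2 (-1) = dg 1 u u⁻¹ := by
  rw [tv12, tv12, tv21, tv21]
  simp only [dg, Matrix.mul_fin_three]
  ext i j
  fin_cases i <;> fin_cases j <;> simp <;> field_simp <;> ring

theorem gen_top (H : Subgroup (SL3 F))
    (hE : ∀ (i j : Fin 3), i ≠ j → ∀ t : F, InS H (transvection i j t)) : H = ⊤ := by
  classical
  have hT1 : ∀ x : F, x ≠ 0 → InS H (dg x x⁻¹ 1) := by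
    intro x hx
    rw [← wh1 x hx]
    exact (((((hE 0 1 (by decide) _).mul (hE 1 0 (by decide) _)).mul (hE 0 1 (by decide) _)).mul
      (hE 0 1 (by decide) _)).mul (hE 1 0 (by decide) _)).mul (hE 0 1 (by decide) _)
  have hT2 : ∀ x : F, x ≠ 0 → InS H (dg 1 x x⁻¹) := by
    intro x hx
    rw [← wh2 x hx]
    exact (((((hE 1 2 (by decide) _).mul (hE 2 1 (by decide) _)).mul (hE 1 2 (by decide) _)).mul
      (hE 1 2 (by decide) _)).mul (hE 2 1 (by decide) _)).mul (hE 1 2 (by decide) _)
  have hall : ∀ A : M3 F, A.det = 1 → InS H A := by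
    intro A hA
    obtain ⟨L, L', D, h⟩ := Matrix.Pivot.exists_list_transvec_mul_diagonal_mul_list_transvec A
    have hL : ∀ L : List (TransvectionStruct (Fin 3) F),
        InS H (L.map TransvectionStruct.toMatrix).prod := by
      intro L
      apply InS.list_prod
      intro B hB
      rw [List.mem_map] at hB
      obtain ⟨t, _, rfl⟩ := hB
      exact hE t.i t.j t.hij t.c
    have hdet : (diagonal D).det = 1 := by
      rw [h, det_mul, det_mul, (hL L).det, (hL L').det, one_mul, mul_one] at hA
      exact hA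
    have hprod : D 0 * D 1 * D 2 = 1 := by
      rw [det_diagonal, Fin.prod_univ_three] at hdet
      exact hdet
    have h0 : D 0 ≠ 0 := by
      intro h0; rw [h0] at hprod; simp at hprod
    have h2 : D 2 ≠ 0 := by
      intro h0; rw [h0] at hprod; simp at hprod
    have hD : InS H (diagonal D) := by
      have := (hT1 (D 0) h0).mul (hT2 (D 2)⁻¹ (inv_ne_zero h2))
      rw [dg_mul] at this
      have e : dg (D 0 * 1) ((D 0)⁻¹ * (D 2)⁻¹) (1 * (D 2)⁻¹⁻¹) = diagonal D := by
        have e1 : (D 0)⁻¹ * (D 2)⁻¹ = D 1 := by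
          field_simp
          linear_combination -hprod
        rw [e1, mul_one, one_mul, inv_inv]
        ext i j
        fin_cases i <;> fin_cases j <;> simp [dg]
      rwa [e] at this
    rw [h]
    exact ((hL L).mul hD).mul (hL L')
  rw [eq_top_iff]
  intro g _
  obtain ⟨x, hx, hxg⟩ := hall (g : M3 F) g.2
  have : x = g := Subtype.ext hxg
  rw [← this]
  exact hx

end gen

theorem gent_thm : Pool.SCG.GENTStmt := by
  intro F _ H hH
  exact gen_top H fun i j hij t => ⟨_, hH i j hij t, rfl⟩

end Pool.Agent.H83.SCG2
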