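import Pool.Agent.H24.SCG2.Base2
import Pool.Agent.H26.SCG.NC
import Pool.Agent.H83.SCG2.GENT

/-!
Module NCZ of the project SCG2: a nontrivial automorphism does not commute with all conjugates of
an involution.
-/

set_option autoImplicit false

namespace Pool.Agent.H83.SCG2

open Pool.SCG Matrix

section basics

variable {F : Type} [Field F]

theorem oddp_ne [Finite F] (h : OddP F) (n : ℕ) (hn : n ∣ 6) : ((n : ℕ) : F) ≠ 0 := by
  classical
  have : Fintype F := Fintype.ofFinite F
  intro h0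
  have h1 : ((Nat.card F : ℕ) : F) = 0 := by
    rw [Nat.card_eq_fintype_card]
    exact FiniteField.cast_card_eq_zero F
  have h2 := h.1
  have h3 : Nat.card F = 6 * (Nat.card F / 6) + 1 := by omega
  obtain ⟨k, hk⟩ := hn
  rw [h3, hk] at h1
  push_cast at h1
  rw [h0] at h1
  simp at h1

theorem oddp_two [Finite F] (h : OddP F) : (2 : F) ≠ 0 := by
  have := oddp_ne h 2 (by norm_num)
  simpa using this

theorem oddp_three [Finite F] (h : OddP F) : (3 : F) ≠ 0 := by
  have := oddp_ne h 3 (by norm_num)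
  simpa using this

theorem cen_cube (c : SL3 F) (hc : ∀ x : SL3 F, c * x = x * c) : c ^ 3 = 1 := by
  have h1 : c ∈ Subgroup.center (SL3 F) := by
    rw [Subgroup.mem_center_iff]
    intro g
    exact (hc g).symm
  rw [Matrix.SpecialLinearGroup.mem_center_iff] at h1
  obtain ⟨r, hr, hrc⟩ := h1
  apply Subtype.ext
  rw [Matrix.SpecialLinearGroup.coe_pow, ← hrc, ← map_pow]
  rw [Fintype.card_fin] at hr
  rw [hr, map_one]
  rfl

/-- all conjugates of `φ` commute with `β` -/
def QA (β φ : MulAut (SL3 F)) : Prop :=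
  ∀ g : SL3 F, (MulAut.conj g * φ * (MulAut.conj g)⁻¹) * β =
    β * (MulAut.conj g * φ * (MulAut.conj g)⁻¹)

theorem QA_mul {β φ ψ : MulAut (SL3 F)} (h1 : QA β φ) (h2 : QA β ψ) : QA β (φ * ψ) := by
  intro g
  have e : MulAut.conj g * (φ * ψ) * (MulAut.conj g)⁻¹
      = (MulAut.conj g * φ * (MulAut.conj g)⁻¹) * (MulAut.conj g * ψ * (MulAut.conj g)⁻¹) := by
    group
  rw [e]
  have h1' := h1 g
  have h2' := h2 g
  generalize MulAut.conj g * φ * (MulAut.conj g)⁻¹ = a at *
  generalize MulAut.conj g * ψ * (MulAut.conj g)⁻¹ = b at *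
  calc a * b * β = a * (b * β) := mul_assoc _ _ _
    _ = a * (β * b) := by rw [h2']
    _ = (a * β) * b := (mul_assoc _ _ _).symm
    _ = (β * a) * b := by rw [h1']
    _ = _ := mul_assoc _ _ _

theorem QA_inv {β φ : MulAut (SL3 F)} (h1 : QA β φ) : QA β φ⁻¹ := by
  intro g
  have e : MulAut.conj g * φ⁻¹ * (MulAut.conj g)⁻¹
      = (MulAut.conj g * φ * (MulAut.conj g)⁻¹)⁻¹ := by group
  rw [e]
  have h1' := h1 g
  generalize MulAut.conj g * φ * (MulAut.conj g)⁻¹ = a at *
  calc a⁻¹ * β = a⁻¹ * (β * a) * a⁻¹ := by group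
    _ = a⁻¹ * (a * β) * a⁻¹ := by rw [h1']
    _ = _ := by group

theorem QA_conj {β φ : MulAut (SL3 F)} (h : SL3 F) (h1 : QA β φ) :
    QA β (MulAut.conj h * φ * (MulAut.conj h)⁻¹) := by
  intro g
  have e : MulAut.conj g * (MulAut.conj h * φ * (MulAut.conj h)⁻¹) * (MulAut.conj g)⁻¹
      = MulAut.conj (g * h) * φ * (MulAut.conj (g * h))⁻¹ := by
    rw [map_mul]; group
  rw [e]
  exact h1 (g * h)

/-- commuting with an inner automorphism -/
theorem fix_cube {β : MulAut (SL3 F)} {S : SL3 F}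
    (h : MulAut.conj S * β = β * MulAut.conj S) : β (S ^ 3) = S ^ 3 := by
  have h1 : ∀ x : SL3 F, S * β x * S⁻¹ = β S * β x * (β S)⁻¹ := by
    intro x
    have := congrArg (fun f : MulAut (SL3 F) => f x) h
    simp only [MulAut.mul_apply, MulAut.conj_apply] at this
    rw [this, map_mul, map_mul, map_inv]
  have h2 : ∀ y : SL3 F, (S⁻¹ * β S) * y = y * (S⁻¹ * β S) := by
    intro y
    have h3 := h1 (β⁻¹ y)
    rw [MulAut.apply_inv_self] at h3
    calc (S⁻¹ * β S) * y = S⁻¹ * (β S * y * (β S)⁻¹) * β S := by group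
      _ = S⁻¹ * (S * y * S⁻¹) * β S := by rw [h3]
      _ = _ := by group
  have h4 := cen_cube _ h2
  have h5 : β S = S * (S⁻¹ * β S) := by group
  rw [map_pow, h5]
  have hc : Commute S (S⁻¹ * β S) := (h2 S).symm
  rw [hc.mul_pow, h4, mul_one]

theorem exists_sl (A : M3 F) (h : A.det = 1) : ∃ g : SL3 F, (g : M3 F) = A := ⟨⟨A, h⟩, rfl⟩

/-- an automorphism commuting with all conjugates of a transvection is trivial -/
theorem final' (h3 : (3 : F) ≠ 0) {β : MulAut (SL3 F)} {T : SL3 F} {v l : Fin 3 → F}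
    (hv : v ≠ 0) (hl : l ≠ 0) (hlv : l ⬝ᵥ v = 0) (hT : (T : M3 F) = 1 + vecMulVec v l)
    (hQ : QA β (MulAut.conj T)) : β = 1 := by
  have key : ∀ (S : SL3 F) (u m : Fin 3 → F), u ≠ 0 → m ≠ 0 → m ⬝ᵥ u = 0 →
      (S : M3 F) = 1 + vecMulVec u m → β (S ^ 3) = S ^ 3 := by
    intro S u m hu hm hmu hS
    apply fix_cube
    obtain ⟨P, hP⟩ := Pool.Agent.H26.SCG.exists_basis hv hl hlv
    obtain ⟨R, hR⟩ := Pool.Agent.H26.SCG.exists_basis hu hm hmu
    obtain ⟨E, hE⟩ := exists_sl (!![1, -1, 0; 0, 1, 0; 0, 0, 1] : M3 F) (by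
      rw [Matrix.det_fin_three]; simp)
    have h1 : T * P = P * E := by
      apply Subtype.ext
      rw [Matrix.SpecialLinearGroup.coe_mul, Matrix.SpecialLinearGroup.coe_mul, hT, hE, hP]
    have h2 : S * R = R * E := by
      apply Subtype.ext
      rw [Matrix.SpecialLinearGroup.coe_mul, Matrix.SpecialLinearGroup.coe_mul, hS, hE, hR]
    have h4 : S = (R * P⁻¹) * T * (R * P⁻¹)⁻¹ := by
      have h5 : T = P * E * P⁻¹ := by rw [← h1]; group
      have h6 : S = R * E * R⁻¹ := by rw [← h2]; group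
      rw [h5]
      nth_rewrite 1 [h6]
      group
    have h7 := hQ (R * P⁻¹)
    have h8 : MulAut.conj S = MulAut.conj (R * P⁻¹) * MulAut.conj T *
        (MulAut.conj (R * P⁻¹))⁻¹ := by
      rw [← map_inv, ← map_mul, ← map_mul, ← h4]
    rw [h8]
    exact h7
  have htop : MonoidHom.eqLocus (β : SL3 F →* SL3 F) (MonoidHom.id _) = ⊤ := by
    apply gen_top
    intro i j hij t
    by_cases ht : t = 0
    · subst ht
      rw [transvection_zero]
      exact InS.one
    · refine ⟨⟨_, det_transvection_of_ne i j hij t⟩, ?_, rfl⟩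
      have ht3 : t / 3 ≠ 0 := div_ne_zero ht h3
      set S : SL3 F := ⟨_, det_transvection_of_ne i j hij (t / 3)⟩ with hS
      have hSt : (⟨_, det_transvection_of_ne i j hij t⟩ : SL3 F) = S ^ 3 := by
        apply Subtype.ext
        show transvection i j t = ((S ^ 3 : SL3 F) : M3 F)
        rw [Matrix.SpecialLinearGroup.coe_pow]
        show transvection i j t = (transvection i j (t / 3)) ^ 3
        rw [pow_succ, pow_two, transvection_mul_transvection_same i j hij,
          transvection_mul_transvection_same i j hij]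
        congr 1
        field_simp
        ring
      rw [hSt]
      have h0 : (Pi.single j (1 : F) : Fin 3 → F) ⬝ᵥ Pi.single i (t / 3) = 0 := by
        rw [dotProduct_single, Pi.single_apply, if_neg hij, zero_mul]
      have := key S (Pi.single i (t / 3)) (Pi.single j 1) (by simpa using ht3) (by simp) h0 (by
        show transvection i j (t / 3) = _
        unfold transvection
        congr 1
        ext a b
        rw [vecMulVec_apply, Matrix.single_apply, Pi.single_apply, Pi.single_apply]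
        by_cases h1 : i = a
        · by_cases h2 : j = b
          · rw [if_pos h1.symm, if_pos h2.symm, if_pos (And.intro h1 h2), mul_one]
          · have h3 : ¬ b = j := fun h => h2 h.symm
            have h4 : ¬ (i = a ∧ j = b) := fun h => h2 h.2
            rw [if_neg h3, mul_zero, if_neg h4]
        · have h3 : ¬ a = i := fun h => h1 h.symm
          have h4 : ¬ (i = a ∧ j = b) := fun h => h1 h.1
          rw [if_neg h3, zero_mul, if_neg h4])
      exact this
  ext g : 1
  have hg : g ∈ MonoidHom.eqLocus (β : SL3 F →* SL3 F) (MonoidHom.id _) := by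
    rw [htop]
    exact Subgroup.mem_top g
  exact hg

theorem caseH (h2 : (2 : F) ≠ 0) (h3 : (3 : F) ≠ 0) {β : MulAut (SL3 F)} {h : SL3 F}
    {v φ : Fin 3 → F} (hφv : φ ⬝ᵥ v = 1) (hm : (h : M3 F) = (2 : F) • vecMulVec v φ - 1)
    (hQ : QA β (MulAut.conj h)) : β = 1 := by
  have hv : v ≠ 0 := by
    rintro rfl
    simp at hφv
  obtain ⟨l, hl, hlv⟩ := Pool.Agent.H26.SCG.exists_orth v
  obtain ⟨g, hg⟩ := exists_sl (1 + vecMulVec v l : M3 F) (Pool.Agent.H26.SCG.det_trv hlv)
  have hg1 : (g : M3 F) * (1 + vecMulVec v (-l)) = 1 := by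
    rw [hg, vecMulVec_neg, mul_add, mul_one, mul_neg, add_mul, one_mul, vecMulVec_mul_vecMulVec,
      hlv, zero_smul, vecMulVec_zero, add_zero]
    abel
  have hgi : ((g⁻¹ : SL3 F) : M3 F) = 1 + vecMulVec v (-l) := by
    rw [Matrix.SpecialLinearGroup.coe_inv]
    exact adj_unique g.2 hg1
  have e : (1 + vecMulVec v l) * ((2 : F) • vecMulVec v φ - 1) * (1 + vecMulVec v (-l))
        * ((2 : F) • vecMulVec v φ - 1) = 1 + vecMulVec v ((2 : F) • l) := by
    have p1 : vecMulVec v φ * vecMulVec v φ = vecMulVec v φ := by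
      rw [vecMulVec_mul_vecMulVec, hφv, one_smul]
    have p2 : vecMulVec v l * vecMulVec v φ = 0 := by
      rw [vecMulVec_mul_vecMulVec, hlv, zero_smul, vecMulVec_zero]
    have p3 : vecMulVec v φ * vecMulVec v l = vecMulVec v l := by
      rw [vecMulVec_mul_vecMulVec, hφv, one_smul]
    have p4 : vecMulVec v l * vecMulVec v l = 0 := by
      rw [vecMulVec_mul_vecMulVec, hlv, zero_smul, vecMulVec_zero]
    rw [vecMulVec_neg, vecMulVec_smul]
    generalize vecMulVec v φ = A at *
    generalize vecMulVec v l = L at *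
    have s1 : (1 + L) * ((2 : F) • A - 1) = (2 : F) • A - 1 - L := by
      rw [mul_sub, mul_one, mul_smul_comm, add_mul, one_mul, p2, add_zero]
      abel
    have s2 : ((2 : F) • A - 1 - L) * (1 + -L) = (2 : F) • A - 1 - (2 : F) • L := by
      rw [mul_add, mul_one, mul_neg, sub_mul, sub_mul, one_mul, smul_mul_assoc, p3, p4]
      module
    have s3 : ((2 : F) • A - 1 - (2 : F) • L) * ((2 : F) • A - 1) = 1 + (2 : F) • L := by
      rw [mul_sub, mul_one, mul_smul_comm, sub_mul, sub_mul, one_mul, smul_mul_assoc,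
        smul_mul_assoc, p1, p2]
      module
    rw [s1, s2, s3]
  have hT : ((g * h * g⁻¹ * h : SL3 F) : M3 F) = 1 + vecMulVec v ((2 : F) • l) := by
    rw [Matrix.SpecialLinearGroup.coe_mul, Matrix.SpecialLinearGroup.coe_mul,
      Matrix.SpecialLinearGroup.coe_mul, hgi, hg, hm, e]
  refine final' h3 hv (smul_ne_zero h2 hl) ?_ hT ?_
  · rw [smul_dotProduct, hlv, smul_zero]
  · rw [map_mul, map_mul, map_mul, map_inv]
    exact QA_mul (QA_conj g hQ) hQ

theorem caseP [Finite F] (h2 : (2 : F) ≠ 0) (h3 : (3 : F) ≠ 0) {β : MulAut (SL3 F)}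
    {P : GL (Fin 3) F} (hsym : (P : M3 F).transpose = (P : M3 F))
    (hQ : QA β (graphAut F * diagAut P)) : β = 1 := by
  obtain ⟨v, hv, hiso⟩ := Pool.Agent.H26.SCG.exists_iso (P : M3 F)
  set l : Fin 3 → F := (P : M3 F) *ᵥ v with hldef
  have hPP : ((P⁻¹ : GL (Fin 3) F) : M3 F) * (P : M3 F) = 1 := by
    rw [← Units.val_mul, inv_mul_cancel, Units.val_one]
  have hPP' : (P : M3 F) * ((P⁻¹ : GL (Fin 3) F) : M3 F) = 1 := by
    rw [← Units.val_mul, mul_inv_cancel, Units.val_one]
  have hPl : ((P⁻¹ : GL (Fin 3) F) : M3 F) *ᵥ l = v := by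
    rw [hldef, mulVec_mulVec, hPP, one_mulVec]
  have hl : l ≠ 0 := by
    intro h
    rw [h, mulVec_zero] at hPl
    exact hv hPl.symm
  have hlv : l ⬝ᵥ v = 0 := by rw [dotProduct_comm]; exact hiso
  have hvP : v ᵥ* (P : M3 F) = l := by
    rw [hldef]
    nth_rewrite 1 [← hsym]
    rw [vecMul_transpose]
  obtain ⟨g, hg⟩ := exists_sl (1 + vecMulVec v l : M3 F) (Pool.Agent.H26.SCG.det_trv hlv)
  have hg1 : (g : M3 F) * (1 - vecMulVec v l) = 1 := by
    rw [hg, mul_sub, mul_one, add_mul, one_mul, vecMulVec_mul_vecMulVec,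
      hlv, zero_smul, vecMulVec_zero, add_zero]
    abel
  have hgi : ((g⁻¹ : SL3 F) : M3 F) = 1 - vecMulVec v l := by
    rw [Matrix.SpecialLinearGroup.coe_inv]
    exact adj_unique g.2 hg1
  set Pi' : M3 F := ((P⁻¹ : GL (Fin 3) F) : M3 F) with hPi'
  have hPit : Pi'.transpose = Pi' := by
    have h4 : Pi'.transpose * (P : M3 F) = 1 := by
      have := congrArg Matrix.transpose hPP'
      rw [Matrix.transpose_mul, Matrix.transpose_one, hsym] at this
      exact this
    calc Pi'.transpose = Pi'.transpose * ((P : M3 F) * Pi') := by rw [hPP', mul_one]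
      _ = Pi' := by rw [← mul_assoc, h4, one_mul]
  have hag : (graphAut F * diagAut P) g = g⁻¹ := by
    apply Subtype.ext
    rw [MulAut.mul_apply]
    show ((it (diagAut P g) : SL3 F) : M3 F) = _
    rw [coe_it]
    have hd : ((diagAut P g : SL3 F) : M3 F) = (P : M3 F) * (g : M3 F) * Pi' := rfl
    have hinv : ((diagAut P g : SL3 F) : M3 F) * ((P : M3 F) * (1 - vecMulVec v l) * Pi') = 1 := by
      rw [hd]
      calc (P : M3 F) * (g : M3 F) * Pi' * ((P : M3 F) * (1 - vecMulVec v l) * Pi')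
          = (P : M3 F) * (g : M3 F) * (Pi' * (P : M3 F)) * (1 - vecMulVec v l) * Pi' := by
            simp only [mul_assoc]
        _ = (P : M3 F) * ((g : M3 F) * (1 - vecMulVec v l)) * Pi' := by
            rw [hPP, mul_one]; simp only [mul_assoc]
        _ = 1 := by rw [hg1, mul_one, hPP']
    rw [adj_unique (diagAut P g).2 hinv, hgi, Matrix.transpose_mul, Matrix.transpose_mul, hsym,
      hPit, transpose_sub, transpose_one, transpose_vecMulVec, sub_mul, one_mul, mul_sub, hPP,
      vecMulVec_mul, hvP, mul_vecMulVec, hPl]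
  have hT : ((g⁻¹ * g⁻¹ : SL3 F) : M3 F) = 1 + vecMulVec v ((-2 : F) • l) := by
    have p4 : vecMulVec v l * vecMulVec v l = 0 := by
      rw [vecMulVec_mul_vecMulVec, hlv, zero_smul, vecMulVec_zero]
    rw [Matrix.SpecialLinearGroup.coe_mul, hgi, vecMulVec_smul]
    generalize vecMulVec v l = L at *
    rw [sub_mul, one_mul, mul_sub, mul_one, p4]
    module
  have h2' : (-2 : F) ≠ 0 := neg_ne_zero.2 h2
  refine final' h3 hv (smul_ne_zero h2' hl) ?_ hT ?_
  · rw [smul_dotProduct, hlv, smul_zero]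
  · have h5 := QA_mul hQ (QA_conj g (QA_inv hQ))
    have h6 : (graphAut F * diagAut P) * (MulAut.conj g * (graphAut F * diagAut P)⁻¹ *
        (MulAut.conj g)⁻¹) = MulAut.conj (g⁻¹ * g⁻¹) := by
      generalize graphAut F * diagAut P = α at hag ⊢
      have h7 : α * MulAut.conj g * α⁻¹ = MulAut.conj (α g) := by
        ext x : 1
        simp only [MulAut.mul_apply, MulAut.conj_apply, map_mul, map_inv, MulAut.apply_inv_self]
      calc α * (MulAut.conj g * α⁻¹ * (MulAut.conj g)⁻¹)
          = (α * MulAut.conj g * α⁻¹) * (MulAut.conj g)⁻¹ := by group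
        _ = MulAut.conj (g⁻¹ * g⁻¹) := by rw [h7, hag, map_mul, map_inv]
    rw [h6] at h5
    exact h5

end basics

theorem ncz_thm (hINV : INVStmt) : Pool.SCG.NCZStmt := by
  intro F _ _ hF α β hα hβ hαα hor
  by_contra hcon
  push Not at hcon
  have hQ : QA β α := hcon
  have h2 := oddp_two hF
  have h3 := oddp_three hF
  rcases hor with ⟨h, hh, rfl⟩ | ⟨P, hP, rfl⟩
  · have hh1 : h ≠ 1 := by
      rintro rfl
      exact hα (map_one _)
    have hx1 : inn h ≠ 1 := by
      intro he
      exact hh1 (congrArg Cor.m he)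
    have hx : inn h * inn h = 1 := by
      rw [← inn_mul, hh]
      rfl
    rcases hINV F h2 (inn h) hx1 hx with ⟨v, φ, h4⟩ | ⟨hs, -⟩
    · obtain ⟨-, hφv, hm⟩ := h4
      exact hβ (caseH h2 h3 hφv hm hQ)
    · exact absurd hs (by simp)
  · exact hβ (caseP h2 h3 hP hQ)

end Pool.Agent.H83.SCG2
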